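import Pool.Agent.H5.ISH.CHG

/-! Project ISH, part 2: module PER (helper5). -/

namespace Pool.ISH

open scoped Classical

/-- boundary bonds of direction `i` at height `z` -/
noncomputable def perD (N : ℕ) (S : Set Site) (i : Fin 3) (z : ℤ) : Finset Bond :=
  (BV N).filter (fun b => b.2 = i ∧ b.1 2 = z ∧ b ∈ bd S)

theorem per_dir {N : ℕ} {S : Set Site} {z : ℤ} (hS : ∀ x : Site, x ∉ Vb N → x 2 = z → x ∉ S) {i j : Fin 3}
    (hij : j ≠ i) (hi2 : i ≠ 2) :
    2 * (((Vb N).filter (fun x => x 2 = z ∧ x ∈ S)).image (fun x => x j)).card ≤ (perD N S i z).card := by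
  have := chg_fib (perD N S i z) (fun b : Bond => b.1 j)
    (((Vb N).filter (fun x => x 2 = z ∧ x ∈ S)).image (fun x => x j)) (fun _ => 2) ?_
  · rw [Finset.sum_const, smul_eq_mul, mul_comm] at this
    exact this
  intro y hy
  rw [Finset.mem_image] at hy
  obtain ⟨x, hx, rfl⟩ := hy
  rw [Finset.mem_filter] at hx
  obtain ⟨hxV, hxz, hxS⟩ := hx
  have hxi := mem_Vb.1 hxV i
  rw [abs_le] at hxi
  have hself : Function.update x i (x i) = x := Function.update_eq_self i x
  have h2 : ∀ t : ℤ, Function.update x i t 2 = z := fun t => by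
    rw [Function.update_of_ne (Ne.symm hi2)]
    exact hxz
  have hout : ∀ t : ℤ, ¬ |t| ≤ (N : ℤ) → Function.update x i t ∉ S := fun t ht =>
    hS _ (fun h => ht ((chg_upd hxV).1 h)) (h2 t)
  have hl := hout (-(N : ℤ) - 1) (by rw [abs_le]; omega)
  have hr := hout ((N : ℤ) + 1) (by rw [abs_le]; omega)
  obtain ⟨t1, a1, b1, c1⟩ := chg (S := S) (x := x) (i := i) (a := -(N : ℤ) - 1) (b := x i) (by omega)
    (by rw [hself]; exact fun h => hl (h.2 hxS))
  obtain ⟨t2, a2, b2, c2⟩ := chg (S := S) (x := x) (i := i) (a := x i) (b := N + 1) (by omega)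
    (by rw [hself]; exact fun h => hr (h.1 hxS))
  have m : ∀ t : ℤ, -(N : ℤ) - 1 ≤ t → t ≤ N → ((Function.update x i t, i) : Bond) ∈ bd S →
      ((Function.update x i t, i) : Bond) ∈ (perD N S i z).filter (fun b : Bond => b.1 j = x j) := by
    intro t h1 h3 h4
    unfold perD
    rw [Finset.mem_filter, Finset.mem_filter]
    exact ⟨⟨chg_BV hxV h1 h3, rfl, h2 t, h4⟩, Function.update_of_ne hij _ _⟩
  have hne : ((Function.update x i t1, i) : Bond) ≠ (Function.update x i t2, i) := by
    intro h
    have h5 := congrFun (congrArg Prod.fst h) i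
    simp only [Function.update_self] at h5
    omega
  have hsub : ({(Function.update x i t1, i), (Function.update x i t2, i)} : Finset Bond) ⊆
      (perD N S i z).filter (fun b : Bond => b.1 j = x j) := by
    intro b hb
    simp only [Finset.mem_insert, Finset.mem_singleton] at hb
    rcases hb with rfl | rfl
    · exact m t1 (by omega) (by omega) c1
    · exact m t2 (by omega) (by omega) c2
  exact (Finset.card_pair hne).ge.trans (Finset.card_le_card hsub)

theorem per_main {N : ℕ} {S : Set Site} {z : ℤ} (hS : ∀ x : Site, x ∉ Vb N → x 2 = z → x ∉ S) :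
    16 * ((Vb N).filter (fun x => x 2 = z ∧ x ∈ S)).card ≤
      (((BV N).filter (fun b => b.2 ≠ 2 ∧ b.1 2 = z ∧ b ∈ bd S)).card) ^ 2 := by
  set T := (Vb N).filter (fun x => x 2 = z ∧ x ∈ S) with hT
  have h0 := per_dir hS (i := 0) (j := 1) (by decide) (by decide)
  have h1 := per_dir hS (i := 1) (j := 0) (by decide) (by decide)
  rw [← hT] at h0 h1
  set r := (T.image (fun x : Site => x 1)).card with hr
  set c := (T.image (fun x : Site => x 0)).card with hc
  have hTc : T.card ≤ r * c := by
    have h2 : T.card = (T.image (fun x : Site => (x 1, x 0))).card := by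
      symm
      apply Finset.card_image_of_injOn
      intro x hx y hy hxy
      rw [hT, Finset.mem_coe, Finset.mem_filter] at hx hy
      simp only [Prod.mk.injEq] at hxy
      funext i
      fin_cases i
      · exact hxy.2
      · exact hxy.1
      · exact hx.2.1.trans hy.2.1.symm
    rw [h2, hr, hc, ← Finset.card_product]
    apply Finset.card_le_card
    intro p hp
    rw [Finset.mem_image] at hp
    obtain ⟨x, hx, rfl⟩ := hp
    rw [Finset.mem_product]
    exact ⟨Finset.mem_image_of_mem _ hx, Finset.mem_image_of_mem _ hx⟩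
  have hH : (perD N S 0 z).card + (perD N S 1 z).card ≤
      ((BV N).filter (fun b => b.2 ≠ 2 ∧ b.1 2 = z ∧ b ∈ bd S)).card := by
    rw [← Finset.card_union_of_disjoint]
    · apply Finset.card_le_card
      intro b hb
      unfold perD at hb
      rw [Finset.mem_union, Finset.mem_filter, Finset.mem_filter] at hb
      rw [Finset.mem_filter]
      rcases hb with ⟨h3, h4, h5⟩ | ⟨h3, h4, h5⟩
      · exact ⟨h3, by rw [h4]; decide, h5⟩
      · exact ⟨h3, by rw [h4]; decide, h5⟩
    · rw [Finset.disjoint_left]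
      intro b hb hb'
      unfold perD at hb hb'
      rw [Finset.mem_filter] at hb hb'
      have := hb.2.1.symm.trans hb'.2.1
      exact absurd this (by decide)
  set H := ((BV N).filter (fun b => b.2 ≠ 2 ∧ b.1 2 = z ∧ b ∈ bd S)).card with hHdef
  have h6 : 2 * r + 2 * c ≤ H := by omega
  have h7 : (2 * r + 2 * c) ^ 2 ≤ H ^ 2 := Nat.pow_le_pow_left h6 2
  refine le_trans ?_ h7
  have h8 : 4 * (r * c) ≤ (r + c) ^ 2 := by
    zify
    nlinarith [sq_nonneg ((r : ℤ) - c)]
  nlinarith

theorem per : PERStmt := by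
  intro N P hP
  refine ⟨fun z hz hzN => ?_, fun z hz hz0 => ?_⟩
  · unfold Tc Hc
    exact per_main (fun x hx hxz hxP => by
      have := (hP x hx).1 hxP
      omega)
  · have := per_main (N := N) (S := Pᶜ) (z := z) (fun x hx hxz hxP => hxP ((hP x hx).2 (by omega)))
    rw [bd_compl] at this
    unfold Tc Hc
    exact this

end Pool.ISH
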