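import Pool.Agent.H40.ISH.Stmts2
import Pool.Agent.H40.ISH.Basic

/-! Project ISH, part 2: module SUM (helper5). -/

namespace Pool.ISH

open scoped Classical

theorem sum_mem {N : ℕ} {b : Bond} (hb : b ∈ BV N) {j : Fin 3} (h : j ≠ b.2) : |b.1 j| ≤ (N : ℤ) := by
  rcases mem_BV.1 hb with h1 | h1
  · exact mem_Vb.1 h1 j
  · have := mem_Vb.1 h1 j
    rw [hi_ne h] at this
    exact this

theorem sum : SUMStmt := by
  intro N P
  unfold Ec Vc Hc
  have h1 : ((BV N).filter (fun b => b ∈ bd P)).card =
      ((BV N).filter (fun b => b.2 = 2 ∧ b ∈ bd P)).card +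
        ((BV N).filter (fun b => b.2 ≠ 2 ∧ b ∈ bd P)).card := by
    rw [← Finset.card_filter_add_card_filter_not (s := (BV N).filter (fun b => b ∈ bd P))
      (fun b => b.2 = 2), Finset.filter_filter, Finset.filter_filter]
    congr 2
    · ext b
      simp only [Finset.mem_filter]
      tauto
    · ext b
      simp only [Finset.mem_filter]
      tauto
  rw [h1]
  congr 1
  rw [Finset.card_eq_sum_card_fiberwise (f := fun b : Bond => b.1 2) (t := Finset.Icc (-(N : ℤ)) N)]
  · refine Finset.sum_congr rfl (fun z _ => ?_)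
    rw [Finset.filter_filter]
    congr 1
    ext b
    simp only [Finset.mem_filter]
    tauto
  · intro b hb
    simp only [Finset.coe_filter, Set.mem_ofPred_eq] at hb
    have := sum_mem hb.1 (j := 2) (Ne.symm hb.2.1)
    rw [abs_le] at this
    simp only [Finset.coe_Icc, Set.mem_Icc]
    exact this

end Pool.ISH
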