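import Pool.Agent.H5.ISH.CHG

/-! Project ISH, part 2: module VRT (helper5). -/

namespace Pool.ISH

open scoped Classical

/-- the columns of the box -/
noncomputable def vrtC (N : ℕ) : Finset (ℤ × ℤ) :=
  Finset.Icc (-(N : ℤ)) N ×ˢ Finset.Icc (-(N : ℤ)) N

theorem vrt_cardC (N : ℕ) : (vrtC N).card = (2 * N + 1) ^ 2 := by
  unfold vrtC
  rw [Finset.card_product, Int.card_Icc]
  have : ((N : ℤ) + 1 - -(N : ℤ)).toNat = 2 * N + 1 := by omega
  rw [this]
  ring

theorem vrt_mem {N : ℕ} {c : ℤ × ℤ} (hc : c ∈ vrtC N) (h : ℤ) (hh : |h| ≤ (N : ℤ)) :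
    (![c.1, c.2, h] : Site) ∈ Vb N := by
  unfold vrtC at hc
  rw [Finset.mem_product, Finset.mem_Icc, Finset.mem_Icc] at hc
  rw [mem_Vb]
  intro i
  fin_cases i
  · exact abs_le.2 hc.1
  · exact abs_le.2 hc.2
  · exact hh

theorem vrt_upd (a b c h : ℤ) : Function.update (![a, b, c] : Site) 2 h = ![a, b, h] := by
  funext i
  fin_cases i <;> rfl

theorem vrt_bond {N : ℕ} {P : Set Site} {c : ℤ × ℤ} (hc : c ∈ vrtC N) {a b : ℤ} (ha : -(N : ℤ) - 1 ≤ a)
    (hab : a ≤ b) (hb : b ≤ N + 1)
    (h : ¬ ((![c.1, c.2, a] : Site) ∈ P ↔ (![c.1, c.2, b] : Site) ∈ P)) :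
    ∃ t, a ≤ t ∧ t < b ∧ ((![c.1, c.2, t], 2) : Bond) ∈
      (((BV N).filter (fun b => b.2 = 2 ∧ b ∈ bd P)).filter (fun b : Bond => (b.1 0, b.1 1) = c)) := by
  have h0 : (![c.1, c.2, 0] : Site) ∈ Vb N := vrt_mem hc 0 (by simp)
  obtain ⟨t, h1, h2, h3⟩ := chg (S := P) (x := ![c.1, c.2, 0]) (i := 2) hab (by rwa [vrt_upd, vrt_upd])
  have h4 := chg_BV (h := t) (i := 2) h0 (by omega) (by omega)
  rw [vrt_upd] at h3 h4
  refine ⟨t, h1, h2, ?_⟩
  rw [Finset.mem_filter, Finset.mem_filter]
  exact ⟨⟨h4, rfl, h3⟩, rfl⟩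

theorem vrt : VRTStmt := by
  intro N P hP
  have hlow : ∀ c : ℤ × ℤ, (![c.1, c.2, -(N : ℤ) - 1] : Site) ∈ P := by
    intro c
    rw [hP _ (fun h => by
      have := mem_Vb.1 h 2
      simp only [Fin.isValue, Matrix.cons_val] at this
      rw [abs_le] at this
      omega)]
    show -(N : ℤ) - 1 ≤ 0
    omega
  have hhigh : ∀ c : ℤ × ℤ, (![c.1, c.2, (N : ℤ) + 1] : Site) ∉ P := by
    intro c
    rw [hP _ (fun h => by
      have := mem_Vb.1 h 2
      simp only [Fin.isValue, Matrix.cons_val] at this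
      rw [abs_le] at this
      omega)]
    show ¬ (N : ℤ) + 1 ≤ 0
    omega
  have h1 : ∀ c ∈ vrtC N, 1 ≤ (((BV N).filter (fun b => b.2 = 2 ∧ b ∈ bd P)).filter
      (fun b : Bond => (b.1 0, b.1 1) = c)).card := by
    intro c hc
    obtain ⟨t, -, -, ht⟩ := vrt_bond (P := P) hc (a := -(N : ℤ) - 1) (b := N + 1) le_rfl (by omega) le_rfl
      (fun h => hhigh c (h.1 (hlow c)))
    exact Finset.card_pos.2 ⟨_, ht⟩
  constructor
  · have := chg_fib ((BV N).filter (fun b => b.2 = 2 ∧ b ∈ bd P)) (fun b : Bond => (b.1 0, b.1 1)) (vrtC N)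
      (fun _ => 1) h1
    rw [Finset.sum_const, vrt_cardC, smul_eq_mul, mul_one] at this
    exact this
  · intro z z' hz hzz hz'
    set X := (Vb N).filter (fun x => x 2 = z ∧ x ∉ P ∧ Function.update x 2 z' ∈ P) with hX
    set Y := X.image (fun x : Site => (x 0, x 1)) with hY
    have hYc : Y.card = X.card := by
      apply Finset.card_image_of_injOn
      intro x hx y hy hxy
      rw [hX, Finset.mem_coe, Finset.mem_filter] at hx hy
      simp only [Prod.mk.injEq] at hxy
      funext i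
      fin_cases i
      · exact hxy.1
      · exact hxy.2
      · exact hx.2.1.trans hy.2.1.symm
    have hYV : Y ⊆ vrtC N := by
      intro c hc
      rw [hY, Finset.mem_image] at hc
      obtain ⟨x, hx, rfl⟩ := hc
      rw [hX, Finset.mem_filter] at hx
      unfold vrtC
      rw [Finset.mem_product, Finset.mem_Icc, Finset.mem_Icc]
      exact ⟨abs_le.1 (mem_Vb.1 hx.1 0), abs_le.1 (mem_Vb.1 hx.1 1)⟩
    have h3 : ∀ c ∈ Y, 3 ≤ (((BV N).filter (fun b => b.2 = 2 ∧ b ∈ bd P)).filter
        (fun b : Bond => (b.1 0, b.1 1) = c)).card := by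
      intro c hc
      have hcV := hYV hc
      rw [hY, Finset.mem_image] at hc
      obtain ⟨x, hx, hxc⟩ := hc
      rw [hX, Finset.mem_filter] at hx
      obtain ⟨hxV, hx2, hxP, hxP'⟩ := hx
      have ex : x = ![c.1, c.2, z] := by
        rw [← hxc, ← hx2]
        funext i
        fin_cases i <;> rfl
      have hA : (![c.1, c.2, z] : Site) ∉ P := by rw [← ex]; exact hxP
      have hB : (![c.1, c.2, z'] : Site) ∈ P := by
        rw [ex, vrt_upd] at hxP'
        exact hxP'
      obtain ⟨t1, a1, b1, m1⟩ := vrt_bond (P := P) hcV (a := -(N : ℤ) - 1) (b := z) le_rfl (by omega) (by omega)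
        (fun h => hA (h.1 (hlow c)))
      obtain ⟨t2, a2, b2, m2⟩ := vrt_bond (P := P) hcV (a := z) (b := z') (by omega) (by omega) (by omega)
        (fun h => hA (h.2 hB))
      obtain ⟨t3, a3, b3, m3⟩ := vrt_bond (P := P) hcV (a := z') (b := N + 1) (by omega) (by omega) le_rfl
        (fun h => hhigh c (h.1 hB))
      have hne : ∀ {s t : ℤ}, s ≠ t → ((![c.1, c.2, s], 2) : Bond) ≠ (![c.1, c.2, t], 2) := by
        intro s t hst h
        have := congrFun (congrArg Prod.fst h) 2
        exact hst this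
      have hsub : ({(![c.1, c.2, t1], 2), (![c.1, c.2, t2], 2), (![c.1, c.2, t3], 2)} : Finset Bond) ⊆
          (((BV N).filter (fun b => b.2 = 2 ∧ b ∈ bd P)).filter (fun b : Bond => (b.1 0, b.1 1) = c)) := by
        intro b hb
        simp only [Finset.mem_insert, Finset.mem_singleton] at hb
        rcases hb with rfl | rfl | rfl
        · exact m1
        · exact m2
        · exact m3
      have hcard : ({(![c.1, c.2, t1], 2), (![c.1, c.2, t2], 2), (![c.1, c.2, t3], 2)} : Finset Bond).card = 3 := by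
        rw [Finset.card_insert_of_notMem, Finset.card_insert_of_notMem, Finset.card_singleton]
        · rw [Finset.mem_singleton]
          exact hne (by omega)
        · rw [Finset.mem_insert, Finset.mem_singleton]
          rintro (h | h)
          · exact hne (by omega) h
          · exact hne (by omega) h
      exact hcard.ge.trans (Finset.card_le_card hsub)
    have := chg_fib ((BV N).filter (fun b => b.2 = 2 ∧ b ∈ bd P)) (fun b : Bond => (b.1 0, b.1 1)) (vrtC N)
      (fun c => 1 + if c ∈ Y then 2 else 0) (by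
        intro c hc
        by_cases hcY : c ∈ Y
        · rw [if_pos hcY]
          exact h3 c hcY
        · rw [if_neg hcY]
          exact h1 c hc)
    rw [Finset.sum_add_distrib, Finset.sum_const, vrt_cardC, smul_eq_mul, mul_one, ← Finset.sum_filter,
      Finset.sum_const, smul_eq_mul, Finset.filter_mem_eq_inter, Finset.inter_eq_right.2 hYV, hYc] at this
    rw [mul_comm 2 (Finset.card _)]
    exact this

end Pool.ISH
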