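import Pool.Agent.H40.ISH.Stmts2
import Pool.Agent.H40.ISH.Basic

/-! Project ISH, part 2: changes of membership along lines (helper5). -/

namespace Pool.ISH

open scoped Classical

theorem chg_hi (x : Site) (i : Fin 3) (h : ℤ) : hi (Function.update x i h, i) = Function.update x i (h + 1) := by
  funext j
  by_cases hj : j = i
  · subst hj
    show Function.update x j h j + ev j j = _
    rw [Function.update_self, Function.update_self, ev_same]
  · show Function.update x i h j + ev i j = _
    rw [Function.update_of_ne hj, Function.update_of_ne hj, ev_ne hj, add_zero]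

/-- between two heights with different membership there is a boundary bond -/
theorem chg {S : Set Site} {x : Site} {i : Fin 3} {a b : ℤ} (hab : a ≤ b)
    (h : ¬ (Function.update x i a ∈ S ↔ Function.update x i b ∈ S)) :
    ∃ t, a ≤ t ∧ t < b ∧ ((Function.update x i t, i) : Bond) ∈ bd S := by
  by_contra hc
  push Not at hc
  apply h
  have key : ∀ t, a ≤ t → t ≤ b → (Function.update x i a ∈ S ↔ Function.update x i t ∈ S) := by
    intro t ht
    induction t, ht using Int.leInduction with
    | base => exact fun _ => Iff.rfl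
    | succ t ht ih =>
      intro htb
      rw [ih (by omega)]
      have h1 := hc t ht (by omega)
      rw [mem_bd, not_not, chg_hi] at h1
      exact h1
  exact key b hab le_rfl

theorem chg_upd {N : ℕ} {x : Site} (hx : x ∈ Vb N) {i : Fin 3} {h : ℤ} :
    Function.update x i h ∈ Vb N ↔ |h| ≤ (N : ℤ) := by
  rw [mem_Vb]
  constructor
  · intro h1
    have := h1 i
    rwa [Function.update_self] at this
  · intro h1 j
    by_cases hj : j = i
    · subst hj
      rw [Function.update_self]
      exact h1
    · rw [Function.update_of_ne hj]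
      exact mem_Vb.1 hx j

theorem chg_BV {N : ℕ} {x : Site} (hx : x ∈ Vb N) {i : Fin 3} {h : ℤ} (h1 : -(N : ℤ) - 1 ≤ h)
    (h2 : h ≤ N) : ((Function.update x i h, i) : Bond) ∈ BV N := by
  rw [mem_BV]
  by_cases h3 : -(N : ℤ) ≤ h
  · left
    exact (chg_upd hx).2 (abs_le.2 ⟨h3, h2⟩)
  · right
    rw [chg_hi, chg_upd hx, abs_le]
    omega

/-- fibers of a map on a finite set -/
theorem chg_fib {α β : Type*} [DecidableEq β] (D : Finset α) (f : α → β) (R : Finset β) (w : β → ℕ)
    (h : ∀ y ∈ R, w y ≤ (D.filter (fun b => f b = y)).card) : ∑ y ∈ R, w y ≤ D.card := by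
  have h1 : (D.filter (fun b => f b ∈ R)).card = ∑ y ∈ R, ((D.filter (fun b => f b ∈ R)).filter
      (fun b => f b = y)).card := by
    apply Finset.card_eq_sum_card_fiberwise
    intro b hb
    rw [Finset.mem_coe, Finset.mem_filter] at hb
    exact hb.2
  refine le_trans ?_ (Finset.card_filter_le D (fun b => f b ∈ R))
  rw [h1]
  refine Finset.sum_le_sum (fun y hy => (h y hy).trans (Finset.card_le_card ?_))
  intro b hb
  rw [Finset.mem_filter] at hb
  rw [Finset.mem_filter, Finset.mem_filter]
  exact ⟨⟨hb.1, by rw [hb.2]; exact hy⟩, hb.2⟩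

end Pool.ISH
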